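import Mathlib

/-!
Random simple tensors whose factors have coordinates that vanish with positive probability are
linearly dependent with high probability as soon as the degree is at least `c n / log n`.
-/

set_option autoImplicit false

namespace Pool.Agent.Results.MP_2a72d7_pr.ZeroCoordinates

open MeasureTheory Filter Topology

/-- `ν` is the law of a mean zero, unit variance random variable with subgaussian norm
`inf {K > 0 : E exp (x ^ 2 / K ^ 2) ≤ 2}` at most `L`. -/
structure Admissible (L : ℝ) (ν : Measure ℝ) : Prop where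
  prob : IsProbabilityMeasure ν
  integrable : Integrable (fun x : ℝ => x) ν
  mean : ∫ x, x ∂ν = 0
  var : ∫ x, x ^ 2 ∂ν = 1
  subgaussian : ∫⁻ x, ENNReal.ofReal (Real.exp (x ^ 2 / L ^ 2)) ∂ν ≤ 2

/-- The simple tensor `x_1 ⊗ ⋯ ⊗ x_d` in coordinates. -/
def tensor {n d : ℕ} (x : Fin d → Fin n → ℝ) : (Fin d → Fin n) → ℝ := fun f => ∏ k, x k (f k)

/-- The law of the factors of `m` independent simple tensors of degree `d` in dimension `n`, all
coordinates being independent with law `ν`. -/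
noncomputable def law (ν : Measure ℝ) (n d m : ℕ) : Measure (Fin m → Fin d → Fin n → ℝ) :=
  Measure.pi fun _ => Measure.pi fun _ => Measure.pi fun _ => ν

/-- The smallest singular value of the matrix with columns `X_i = tensor (x i)` is at least `σ`. -/
def SigmaMinGe {n d m : ℕ} (σ : ℝ) (x : Fin m → Fin d → Fin n → ℝ) : Prop :=
  ∀ a : Fin m → ℝ, σ * √(∑ i, a i ^ 2) ≤ √(∑ f, (∑ i, a i * tensor (x i) f) ^ 2)

/-- zero with probability `p`, otherwise `± a` -/
noncomputable def nu (p a : ℝ) : Measure ℝ :=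
  ENNReal.ofReal p • Measure.dirac 0 +
    ENNReal.ofReal ((1 - p) / 2) • (Measure.dirac a + Measure.dirac (-a))

theorem integrable_nu (p a : ℝ) (f : ℝ → ℝ) : Integrable f (nu p a) := by
  unfold nu
  refine Integrable.add_measure ?_ ?_
  · exact (integrable_dirac (by simp)).smul_measure (by simp)
  · exact ((integrable_dirac (by simp)).add_measure (integrable_dirac (by simp))).smul_measure
      (by simp)

theorem integral_nu {p : ℝ} (hp : 0 ≤ p) (hp1 : p ≤ 1) (a : ℝ) (f : ℝ → ℝ) :
    ∫ x, f x ∂(nu p a) = p * f 0 + (1 - p) / 2 * (f a + f (-a)) := by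
  unfold nu
  rw [integral_add_measure, integral_smul_measure, integral_smul_measure, integral_add_measure,
    integral_dirac, integral_dirac, integral_dirac, ENNReal.toReal_ofReal hp,
    ENNReal.toReal_ofReal (by linarith)]
  · simp [smul_eq_mul]
  · exact integrable_dirac (by simp)
  · exact integrable_dirac (by simp)
  · exact (integrable_dirac (by simp)).smul_measure (by simp)
  · exact ((integrable_dirac (by simp)).add_measure (integrable_dirac (by simp))).smul_measure
      (by simp)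

theorem prob_nu {p : ℝ} (hp : 0 ≤ p) (hp1 : p ≤ 1) (a : ℝ) : IsProbabilityMeasure (nu p a) := by
  constructor
  unfold nu
  simp only [Measure.coe_add, Measure.coe_smul, Pi.add_apply, Pi.smul_apply, measure_univ,
    smul_eq_mul, mul_one]
  have : (1 : ENNReal) + 1 = ENNReal.ofReal 2 := by norm_num
  rw [this, ← ENNReal.ofReal_mul (by linarith), ← ENNReal.ofReal_add hp (by linarith)]
  norm_num

theorem nu_zero {p : ℝ} (a : ℝ) (ha : a ≠ 0) : nu p a {0} = ENNReal.ofReal p := by
  unfold nu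
  simp [ha]

theorem admissible {p a : ℝ} (hp : 0 < p) (hp1 : p < 1) (ha : 0 < a) (ha2 : (1 - p) * a ^ 2 = 1) :
    Admissible (2 * a) (nu p a) := by
  have hprob := prob_nu hp.le hp1.le a
  refine ⟨hprob, integrable_nu _ _ _, ?_, ?_, ?_⟩
  · rw [integral_nu hp.le hp1.le]; ring
  · rw [integral_nu hp.le hp1.le]; ring_nf; ring_nf at ha2; linarith
  · rw [← ofReal_integral_eq_lintegral_ofReal (integrable_nu _ _ _)
      (Eventually.of_forall fun x => (Real.exp_pos _).le), integral_nu hp.le hp1.le]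
    have h1 : a ^ 2 / (2 * a) ^ 2 = 1 / 4 := by field_simp; norm_num
    have h2 : (-a) ^ 2 / (2 * a) ^ 2 = 1 / 4 := by rw [neg_sq]; exact h1
    have h3 : Real.exp (1 / 4) ≤ 2 := by
      rw [← Real.exp_log (show (0:ℝ) < 2 by norm_num)]
      apply Real.exp_le_exp.2
      have := Real.log_two_gt_d9
      linarith
    rw [h1, h2]
    have h4 : ENNReal.ofReal 2 = 2 := by norm_num
    rw [← h4]
    apply ENNReal.ofReal_le_ofReal
    simp only [ne_eq, OfNat.ofNat_ne_zero, not_false_eq_true, zero_pow, zero_div, Real.exp_zero,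
      mul_one]
    nlinarith

/-- the probability that all tensors have nonzero first factor -/
theorem law_le {ν : Measure ℝ} [IsProbabilityMeasure ν] {n d m : ℕ} (hd : 0 < d) :
    law ν n d m {x | ∀ i, x i ⟨0, hd⟩ ≠ 0} = (1 - ν {0} ^ n) ^ m := by
  have h1 : {x : Fin m → Fin d → Fin n → ℝ | ∀ i, x i ⟨0, hd⟩ ≠ 0} =
      Set.pi Set.univ fun _ => {y : Fin d → Fin n → ℝ | y ⟨0, hd⟩ = 0}ᶜ := by
    ext x
    simp [Set.mem_pi]
  rw [law, h1, Measure.pi_pi]
  have h2 : (Measure.pi fun _ : Fin d => Measure.pi fun _ : Fin n => ν)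
      {y : Fin d → Fin n → ℝ | y ⟨0, hd⟩ = 0} = ν {0} ^ n := by
    have h3 : {y : Fin d → Fin n → ℝ | y ⟨0, hd⟩ = 0} =
        Set.pi Set.univ (fun k : Fin d => if k = ⟨0, hd⟩ then
          (Set.pi Set.univ fun _ : Fin n => ({0} : Set ℝ)) else Set.univ) := by
      ext y
      simp only [Set.mem_ofPred_eq, Set.mem_pi, Set.mem_univ, forall_const]
      constructor
      · intro h k
        by_cases hk : k = ⟨0, hd⟩
        · rw [if_pos hk, hk, h]; simp
        · rw [if_neg hk]; trivial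
      · intro h
        have h4 := h ⟨0, hd⟩
        rw [if_pos rfl] at h4
        funext j
        exact h4 j (Set.mem_univ _)
    rw [h3, Measure.pi_pi, Finset.prod_eq_single (⟨0, hd⟩ : Fin d)]
    · rw [if_pos rfl, Measure.pi_pi]; simp
    · intro k _ hk
      rw [if_neg hk]; simp
    · intro h; exact absurd (Finset.mem_univ _) h
  have hmeas : MeasurableSet {y : Fin d → Fin n → ℝ | y ⟨0, hd⟩ = 0} :=
    (measurable_pi_apply (⟨0, hd⟩ : Fin d) : Measurable fun y : Fin d → Fin n → ℝ => y ⟨0, hd⟩)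
      (measurableSet_singleton (0 : Fin n → ℝ))
  simp only [prob_compl_eq_one_sub hmeas, h2, Finset.prod_const, Finset.card_univ,
    Fintype.card_fin]

theorem tensor_zero {n d : ℕ} (hd : 0 < d) {x : Fin d → Fin n → ℝ} (h : x ⟨0, hd⟩ = 0) :
    tensor x = 0 := by
  funext f
  exact Finset.prod_eq_zero (Finset.mem_univ (⟨0, hd⟩ : Fin d)) (by rw [h]; rfl)

/-- the analytic estimate -/
theorem tendsto_bound {c ε : ℝ} (hc : 0 < c) (hε1 : ε < 1) (d : ℕ → ℕ)
    (hd : ∀ᶠ n : ℕ in atTop, c * n / Real.log n ≤ d n) :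
    Tendsto (fun n : ℕ => (1 - ENNReal.ofReal (Real.exp (-(c / 2))) ^ n) ^
      ⌊(1 - ε) * (n : ℝ) ^ (d n)⌋₊) atTop (𝓝 0) := by
  have hlim : Tendsto (fun n : ℕ => ENNReal.ofReal (Real.exp
      (-(((1 - ε) * Real.exp (c / 2 * n)) - 1)))) atTop (𝓝 0) := by
    have h1 : Tendsto (fun n : ℕ => ((1 - ε) * Real.exp (c / 2 * n)) - 1) atTop atTop := by
      apply tendsto_atTop_add_const_right
      refine Tendsto.const_mul_atTop (by linarith) (Real.tendsto_exp_atTop.comp ?_)
      exact Tendsto.const_mul_atTop (by positivity) tendsto_natCast_atTop_atTop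
    have h2 := (Real.tendsto_exp_atBot.comp (tendsto_neg_atTop_atBot.comp h1))
    have h3 := ENNReal.tendsto_ofReal h2
    rw [ENNReal.ofReal_zero] at h3
    exact h3
  refine tendsto_of_tendsto_of_tendsto_of_le_of_le' tendsto_const_nhds hlim
    (Eventually.of_forall fun _ => zero_le) ?_
  filter_upwards [hd, eventually_ge_atTop 3] with n hn hn3
  have hn3' : (3 : ℝ) ≤ n := by exact_mod_cast hn3
  have hlog : 0 < Real.log n := Real.log_pos (by linarith)
  have hpow : Real.exp (c * n) ≤ (n : ℝ) ^ (d n) := by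
    rw [div_le_iff₀ hlog] at hn
    calc Real.exp (c * n) ≤ Real.exp (d n * Real.log n) := Real.exp_le_exp.2 hn
      _ = (n : ℝ) ^ (d n) := by
        rw [mul_comm, Real.exp_mul, Real.exp_log (by linarith), Real.rpow_natCast]
  set m := ⌊(1 - ε) * (n : ℝ) ^ (d n)⌋₊ with hm
  set q := Real.exp (-(c / 2)) with hq
  have hq0 : 0 < q := Real.exp_pos _
  have hq1 : q ≤ 1 := Real.exp_le_one_iff.2 (by linarith)
  have hqn : q ^ n ≤ 1 := pow_le_one₀ hq0.le hq1
  have hm1 : (1 - ε) * Real.exp (c * n) - 1 ≤ m := by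
    have h1 := Nat.lt_floor_add_one ((1 - ε) * (n : ℝ) ^ (d n))
    have h2 : (1 - ε) * Real.exp (c * n) ≤ (1 - ε) * (n : ℝ) ^ (d n) :=
      mul_le_mul_of_nonneg_left hpow (by linarith)
    linarith
  have h1 : (1 - ENNReal.ofReal q ^ n) ^ m = ENNReal.ofReal ((1 - q ^ n) ^ m) := by
    rw [← ENNReal.ofReal_pow hq0.le, ← ENNReal.ofReal_one, ← ENNReal.ofReal_sub _ (by positivity),
      ENNReal.ofReal_pow (by linarith)]
  rw [h1]
  apply ENNReal.ofReal_le_ofReal
  have h2 : 1 - q ^ n ≤ Real.exp (-(q ^ n)) := by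
    have := Real.add_one_le_exp (-(q ^ n)); linarith
  calc (1 - q ^ n) ^ m ≤ Real.exp (-(q ^ n)) ^ m := pow_le_pow_left₀ (by linarith) h2 m
    _ = Real.exp (-(m * q ^ n)) := by rw [← Real.exp_nat_mul]; ring_nf
    _ ≤ _ := by
      apply Real.exp_le_exp.2
      apply neg_le_neg
      have hqe : q ^ n = Real.exp (-(c / 2 * n)) := by
        rw [hq, ← Real.exp_nat_mul]; ring_nf
      have h3 : ((1 - ε) * Real.exp (c * n) - 1) * q ^ n ≤ m * q ^ n :=
        mul_le_mul_of_nonneg_right hm1 (by positivity)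
      have h4 : Real.exp (c * n) * q ^ n = Real.exp (c / 2 * n) := by
        rw [hqe, ← Real.exp_add]; ring_nf
      have h5 : ((1 - ε) * Real.exp (c * n) - 1) * q ^ n =
          (1 - ε) * Real.exp (c / 2 * n) - q ^ n := by
        rw [sub_mul, one_mul, mul_assoc, h4]
      linarith

theorem result (c : ℝ) (hc : 0 < c) : ∃ (L : ℝ) (ν : Measure ℝ), 0 < L ∧ Admissible L ν ∧
    ∀ ε : ℝ, 0 < ε → ε < 1 → ∀ d : ℕ → ℕ, (∀ᶠ n : ℕ in atTop, c * n / Real.log n ≤ d n) →
      Tendsto (fun n : ℕ => law ν n (d n) ⌊(1 - ε) * (n : ℝ) ^ (d n)⌋₊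
        {x | LinearIndependent ℝ fun i => tensor (x i)}) atTop (𝓝 0) ∧
      Tendsto (fun n : ℕ => law ν n (d n) ⌊(1 - ε) * (n : ℝ) ^ (d n)⌋₊
        {x | SigmaMinGe (√ε / 2) x}) atTop (𝓝 0) := by
  obtain ⟨p, hp⟩ : ∃ p, p = Real.exp (-(c / 2)) := ⟨_, rfl⟩
  have hp0 : 0 < p := by rw [hp]; exact Real.exp_pos _
  have hp1 : p < 1 := by rw [hp]; exact Real.exp_lt_one_iff.2 (by linarith)
  obtain ⟨a, ha⟩ : ∃ a, a = √(1 / (1 - p)) := ⟨_, rfl⟩
  have hp2 : 0 < 1 / (1 - p) := by apply div_pos one_pos; linarith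
  have ha0 : 0 < a := by rw [ha]; exact Real.sqrt_pos.2 hp2
  have ha2 : (1 - p) * a ^ 2 = 1 := by
    rw [ha, Real.sq_sqrt hp2.le]
    field_simp
    rw [div_self]
    linarith
  have hadm := admissible hp0 hp1 ha0 ha2
  have hprob := hadm.prob
  refine ⟨2 * a, nu p a, by positivity, hadm, fun ε hε hε1 d hd => ?_⟩
  have hd0 : ∀ᶠ n : ℕ in atTop, 0 < d n := by
    filter_upwards [hd, eventually_ge_atTop 3] with n hn hn3
    have hn3' : (3 : ℝ) ≤ n := by exact_mod_cast hn3
    have hlog : 0 < Real.log n := Real.log_pos (by linarith)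
    have : (0 : ℝ) < d n := lt_of_lt_of_le (by positivity) hn
    exact_mod_cast this
  have hb := tendsto_bound hc hε1 d hd
  rw [← hp] at hb
  have key : ∀ᶠ n : ℕ in atTop, ∀ m : ℕ, law (nu p a) n (d n) m {x | ∀ i, tensor (x i) ≠ 0} ≤
      (1 - ENNReal.ofReal p ^ n) ^ m := by
    filter_upwards [hd0] with n hn m
    rw [← nu_zero a ha0.ne', ← law_le hn]
    refine measure_mono fun x hx i hi => hx i (tensor_zero hn hi)
  constructor
  · refine tendsto_of_tendsto_of_tendsto_of_le_of_le' tendsto_const_nhds hb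
      (Eventually.of_forall fun _ => zero_le) ?_
    filter_upwards [key] with n hn
    refine le_trans (measure_mono ?_) (hn _)
    intro x hx i
    exact hx.ne_zero i
  · refine tendsto_of_tendsto_of_tendsto_of_le_of_le' tendsto_const_nhds hb
      (Eventually.of_forall fun _ => zero_le) ?_
    filter_upwards [key] with n hn
    refine le_trans (measure_mono ?_) (hn _)
    intro x hx i hi
    have h1 := hx (Pi.single i 1)
    have h2 : ∑ f, (∑ j, (Pi.single i (1 : ℝ) : _ → ℝ) j * tensor (x j) f) ^ 2 = 0 := by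
      refine Finset.sum_eq_zero fun f _ => ?_
      rw [Finset.sum_eq_single i]
      · rw [hi]; simp
      · intro j _ hj
        rw [Pi.single_eq_of_ne hj]; ring
      · intro h; exact absurd (Finset.mem_univ _) h
    have h3 : ∑ j, (Pi.single i (1 : ℝ) : _ → ℝ) j ^ 2 = 1 := by
      rw [Finset.sum_eq_single i]
      · simp
      · intro j _ hj
        rw [Pi.single_eq_of_ne hj]; ring
      · intro h; exact absurd (Finset.mem_univ _) h
    rw [h2, h3, Real.sqrt_zero, Real.sqrt_one, mul_one] at h1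
    have : 0 < √ε := Real.sqrt_pos.2 hε
    linarith

end Pool.Agent.Results.MP_2a72d7_pr.ZeroCoordinates
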